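import Mathlib

/-!
The Kawaguchi-Silverman conjecture for endomorphisms is equivalent to a statement about the points whose
arithmetic degree is already close to the first dynamical degree.
-/

set_option autoImplicit false

open Filter

namespace Pool.Agent.Results.MP_0e7dfd_ag.NearMaximalWindow

/-- The triples `(V, f, x)`: `V` a normal projective variety over the field of algebraic numbers,
`f : V → V` an endomorphism, `x` a point with Zariski dense forward orbit; with the classical facts used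
here. -/
structure Dynamics where
  /-- The triples `(V, f, x)`. -/
  Triple : Type
  /-- The first dynamical degree `d₁(f)`. -/
  d : Triple → ℝ
  /-- The arithmetic degree `a_f(x)`. -/
  a : Triple → ℝ
  /-- Kawaguchi-Silverman. -/
  one_le : ∀ S, 1 ≤ a S
  /-- Kawaguchi-Silverman. -/
  a_le : ∀ S, a S ≤ d S
  /-- The triple `(V, f^n, x)`. -/
  iterate : Triple → ℕ → Triple
  d_iterate : ∀ S n, 1 ≤ n → d (iterate S n) = d S ^ n
  a_iterate : ∀ S n, 1 ≤ n → a (iterate S n) = a S ^ n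
  /-- The triple `(ℙ¹, z ↦ z^q, 2)`. -/
  power : ℕ → Triple
  d_power : ∀ q, 2 ≤ q → d (power q) = q
  a_power : ∀ q, 2 ≤ q → a (power q) = q
  /-- For `(V, f, x)` and `(W, g, y)` some iterate `(f × g)^m` maps an irreducible component `Z` of the
  closure of the orbit of `(x, y)` in `V × W` (without the finitely many isolated first points) to itself;
  the triple consists of the normalization of `Z`, of the lift of `(f × g)^m` and of a point above a point
  of the orbit.  The projections from `Z` to `V` and to `W` are surjective. -/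
  join : ∀ S S', ∃ J : Triple, ∃ m : ℕ, 1 ≤ m ∧ d J = max (d S) (d S') ^ m ∧
    a J = max (a S) (a S') ^ m

/-- The conjecture: the arithmetic degree of a point with Zariski dense orbit is the first dynamical
degree. -/
def KawaguchiSilverman (D : Dynamics) : Prop := ∀ S : D.Triple, D.a S = D.d S

/-- The weak form: if the arithmetic degree is at least `d₁(f)^(1-ε)`, then it is at least
`ψ (d₁(f))`. -/
def Window (D : Dynamics) (ε : ℝ) (ψ : ℝ → ℝ) : Prop :=
  ∀ S : D.Triple, D.d S ^ (1 - ε) ≤ D.a S → ψ (D.d S) ≤ D.a S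

/-- The numbers `u < w` with `1 < u`: for all large `n` some integer `q ≥ 2` lies between `u^n` and
`w^n`. -/
theorem exists_nat (u w : ℝ) (hu : 1 < u) (huw : u < w) :
    ∀ᶠ n : ℕ in atTop, ∃ q : ℕ, 2 ≤ q ∧ u ^ n ≤ q ∧ (q : ℝ) < w ^ n := by
  have h1 : ∀ᶠ n : ℕ in atTop, 2 ≤ u ^ n :=
    (tendsto_pow_atTop_atTop_of_one_lt hu).eventually_ge_atTop 2
  have hwu : 1 < w / u := by
    rw [one_lt_div (by linarith)]; exact huw
  have h2 : ∀ᶠ n : ℕ in atTop, 2 ≤ (w / u) ^ n :=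
    (tendsto_pow_atTop_atTop_of_one_lt hwu).eventually_ge_atTop 2
  filter_upwards [h1, h2] with n hn1 hn2
  have hupos : 0 < u := by linarith
  refine ⟨⌈u ^ n⌉₊, ?_, Nat.le_ceil _, ?_⟩
  · have : (2 : ℝ) ≤ (⌈u ^ n⌉₊ : ℝ) := hn1.trans (Nat.le_ceil _)
    exact_mod_cast this
  · have h3 : (⌈u ^ n⌉₊ : ℝ) < u ^ n + 1 := Nat.ceil_lt_add_one (by positivity)
    have h4 : w ^ n = u ^ n * (w / u) ^ n := by
      rw [← mul_pow, mul_div_cancel₀ _ hupos.ne']
    have h5 : u ^ n * 2 ≤ u ^ n * (w / u) ^ n := by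
      exact mul_le_mul_of_nonneg_left hn2 (by positivity)
    rw [h4]
    linarith

theorem window_of (D : Dynamics) (ε : ℝ) (ψ : ℝ → ℝ) (hψ : ∀ t, 1 ≤ t → ψ t ≤ t) :
    KawaguchiSilverman D → Window D ε ψ := by
  intro h S _
  have h1 : 1 ≤ D.d S := (D.one_le S).trans (D.a_le S)
  rw [h S]
  exact hψ _ h1

theorem of_window (D : Dynamics) (ε : ℝ) (hε : 0 < ε) (ψ : ℝ → ℝ)
    (hψ : ∀ μ : ℝ, μ < 1 → ∀ᶠ t in atTop, t ^ μ ≤ ψ t) :
    Window D ε ψ → KawaguchiSilverman D := by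
  intro hW S
  by_contra hne
  have had : D.a S < D.d S := lt_of_le_of_ne (D.a_le S) hne
  have ha1 : 1 ≤ D.a S := D.one_le S
  have hd1 : 1 < D.d S := lt_of_le_of_lt ha1 had
  have hd0 : 0 < D.d S := by linarith
  have hεd : D.d S ^ (1 - ε) < D.d S := by
    calc D.d S ^ (1 - ε) < D.d S ^ (1 : ℝ) :=
          Real.rpow_lt_rpow_of_exponent_lt hd1 (by linarith)
      _ = D.d S := Real.rpow_one _
  obtain ⟨v, hv1, hv2⟩ := exists_between (max_lt had hεd)
  obtain ⟨u, hu1, hu2⟩ := exists_between hv2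
  obtain ⟨w, hw1, hw2⟩ := exists_between hu2
  have hva : D.a S < v := lt_of_le_of_lt (le_max_left _ _) hv1
  have hvε : D.d S ^ (1 - ε) < v := lt_of_le_of_lt (le_max_right _ _) hv1
  have hua : D.a S < u := hva.trans hu1
  have huε : D.d S ^ (1 - ε) < u := hvε.trans hu1
  have hu0 : 1 < u := lt_of_le_of_lt ha1 hua
  have hw0 : 0 < w := by linarith
  -- the exponent of `w`
  have hlog : 0 < Real.log (D.d S) := Real.log_pos hd1
  have hμ1 : Real.log w / Real.log (D.d S) < 1 := by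
    rw [div_lt_one hlog]
    exact Real.log_lt_log hw0 hw2
  have hμ2 : D.d S ^ (Real.log w / Real.log (D.d S)) = w := by
    rw [Real.rpow_def_of_pos hd0, mul_div_cancel₀ _ hlog.ne', Real.exp_log hw0]
  have hT := hψ _ hμ1
  rw [eventually_atTop] at hT
  obtain ⟨T, hT⟩ := hT
  have e1 : ∀ᶠ n : ℕ in atTop, T ≤ D.d S ^ n :=
    (tendsto_pow_atTop_atTop_of_one_lt hd1).eventually_ge_atTop T
  obtain ⟨n, ⟨hnT, q, hq2, hq3, hq4⟩, hn1⟩ :=
    ((e1.and (exists_nat u w hu0 hw1)).and (eventually_ge_atTop 1)).exists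
  obtain ⟨J, m, hm, hdJ, haJ⟩ := D.join (D.iterate S n) (D.power q)
  rw [D.d_iterate S n hn1, D.d_power q hq2] at hdJ
  rw [D.a_iterate S n hn1, D.a_power q hq2] at haJ
  have hwd : w ^ n ≤ D.d S ^ n := pow_le_pow_left₀ hw0.le hw2.le n
  have hmax1 : max (D.d S ^ n) (q : ℝ) = D.d S ^ n := max_eq_left (hq4.le.trans hwd)
  have hau : D.a S ^ n ≤ u ^ n := pow_le_pow_left₀ (by linarith) hua.le n
  have hmax2 : max (D.a S ^ n) (q : ℝ) = q := max_eq_right (hau.trans hq3)
  rw [hmax1] at hdJ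
  rw [hmax2] at haJ
  have hcond : D.d J ^ (1 - ε) ≤ D.a J := by
    rw [hdJ, haJ]
    have h1 : ((D.d S ^ n) ^ m : ℝ) ^ (1 - ε) = ((D.d S ^ (1 - ε)) ^ n) ^ m := by
      rw [← pow_mul, ← pow_mul, ← Real.rpow_natCast, ← Real.rpow_natCast, ← Real.rpow_mul hd0.le,
        ← Real.rpow_mul hd0.le, mul_comm]
    rw [h1]
    refine pow_le_pow_left₀ (by positivity) ?_ m
    exact (pow_le_pow_left₀ (by positivity) huε.le n).trans hq3
  have h2 := hW J hcond
  rw [hdJ, haJ] at h2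
  have h3 : T ≤ (D.d S ^ n) ^ m := by
    refine hnT.trans ?_
    have : (1 : ℝ) ≤ D.d S ^ n := one_le_pow₀ hd1.le
    calc D.d S ^ n = (D.d S ^ n) ^ 1 := (pow_one _).symm
      _ ≤ (D.d S ^ n) ^ m := pow_le_pow_right₀ this hm
  have h4 := hT _ h3
  have h5 : ((D.d S ^ n) ^ m : ℝ) ^ (Real.log w / Real.log (D.d S)) = (w ^ n) ^ m := by
    conv_rhs => rw [← hμ2]
    rw [← pow_mul, ← pow_mul, ← Real.rpow_natCast, ← Real.rpow_natCast, ← Real.rpow_mul hd0.le,
      ← Real.rpow_mul hd0.le, mul_comm]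
  rw [h5] at h4
  have h6 : (q : ℝ) ^ m < (w ^ n) ^ m :=
    pow_lt_pow_left₀ hq4 (by positivity) (by omega)
  linarith

/-- **Near-maximal arithmetic degrees decide.** Let `ε > 0` and let `ψ` be a function with `ψ t ≤ t` for
`t ≥ 1` and `ψ t ≥ t^μ` for every `μ < 1` and all large `t`.  The Kawaguchi-Silverman conjecture holds for all
`(V, f, x)` if and only if `a_f(x) ≥ ψ (d₁(f))` for all `(V, f, x)` with `a_f(x) ≥ d₁(f)^(1-ε)`. -/
theorem result (D : Dynamics) (ε : ℝ) (hε : 0 < ε) (ψ : ℝ → ℝ) (hψ : ∀ t, 1 ≤ t → ψ t ≤ t)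
    (hψ' : ∀ μ : ℝ, μ < 1 → ∀ᶠ t in atTop, t ^ μ ≤ ψ t) :
    KawaguchiSilverman D ↔ Window D ε ψ :=
  ⟨window_of D ε ψ hψ, of_window D ε hε ψ hψ'⟩

end Pool.Agent.Results.MP_0e7dfd_ag.NearMaximalWindow
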