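import Mathlib

/-!
# The Kawaguchi–Silverman conjecture: rational points of varieties over `ℚ` suffice

The conjecture for endomorphisms of normal projective varieties over `ℚ̄` (arithmetic degree =
first dynamical degree at every point with a Zariski dense orbit) is equivalent to the same
statement for varieties, endomorphisms and points defined over `ℚ`, and to the asymptotic
inequality `arith g y ≥ dyn g ^ (1 - ε)` for rational points `y` with dense orbit and
endomorphisms `g` over `ℚ` of a fixed variety with large `dyn g`. It follows if the rational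
points which violate this inequality are never dense.

Proof. Restriction of scalars from a number field over which `V`, `f`, `x` are defined to `ℚ` gives
`(R, F, z)` over `ℚ` with a projection `π` onto `(V, f, x)` and the same growth of heights. The
orbit of `z` need not be dense in `R`. A component `W` of its closure is mapped to itself by an
iterate of `F`, its normalization is a variety over `ℚ` with a rational point of dense orbit, and
`W → R → V` is dominant because the orbit of `x` is dense. So the dynamical degree of the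
iterate on `W` is at least that of the iterate of `f`, and the arithmetic degrees agree. The
asymptotic inequality is amplified by taking iterates.
-/

set_option autoImplicit false

open Filter Topology

namespace Pool.Agent.Results.MP_0e7dfd_ag.RationalPointsSuffice

/-- Normal projective varieties over `ℚ̄` with their closed points (in the Zariski topology),
morphisms (as maps on closed points), heights `h_H^+` and degrees `(f^*H . H^(dim V - 1))` with
respect to fixed ample divisors `H`, and published facts about them. -/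
structure Geometry where
  /-- normal projective varieties over `ℚ̄` -/
  Var : Type
  /-- closed points -/
  Pt : Var → Type
  /-- Zariski topology -/
  [top : ∀ V, TopologicalSpace (Pt V)]
  [irr : ∀ V, IrreducibleSpace (Pt V)]
  [t1 : ∀ V, T1Space (Pt V)]
  /-- morphisms of varieties -/
  Mor : ∀ {V W : Var}, (Pt V → Pt W) → Prop
  mor_continuous : ∀ {V W : Var} {φ : Pt V → Pt W}, Mor φ → Continuous φ
  mor_id : ∀ V : Var, Mor (id : Pt V → Pt V)
  mor_comp : ∀ {U V W : Var} {ψ : Pt V → Pt W} {φ : Pt U → Pt V}, Mor ψ → Mor φ → Mor (ψ ∘ φ)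
  /-- the height `h_H^+ = max h_H 1` -/
  ht : ∀ {V : Var}, Pt V → ℝ
  one_le_ht : ∀ {V : Var} (x : Pt V), 1 ≤ ht x
  /-- the intersection number `(f^*H . H^(dim V - 1))` -/
  deg : ∀ {V : Var}, (Pt V → Pt V) → ℝ
  deg_nonneg : ∀ {V : Var} {f : Pt V → Pt V}, Mor f → 0 ≤ deg f
  /-- the limit which defines the arithmetic degree exists (Kawaguchi–Silverman) -/
  ht_limit : ∀ {V : Var} {f : Pt V → Pt V}, Mor f → ∀ x, ∃ L : ℝ,
    Tendsto (fun n : ℕ => ht (f^[n] x) ^ (1 / (n : ℝ))) atTop (𝓝 L)
  /-- the limit which defines the first dynamical degree exists -/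
  deg_limit : ∀ {V : Var} {f : Pt V → Pt V}, Mor f → ∃ L : ℝ,
    Tendsto (fun n : ℕ => deg (f^[n]) ^ (1 / (n : ℝ))) atTop (𝓝 L)

variable (G : Geometry)

instance (V : G.Var) : TopologicalSpace (G.Pt V) := G.top V
instance (V : G.Var) : IrreducibleSpace (G.Pt V) := G.irr V
instance (V : G.Var) : T1Space (G.Pt V) := G.t1 V

variable {G}

/-- The arithmetic degree of `f` at `x`. -/
noncomputable def arith {V : G.Var} (f : G.Pt V → G.Pt V) (x : G.Pt V) : ℝ :=
  limUnder atTop (fun n : ℕ => G.ht (f^[n] x) ^ (1 / (n : ℝ)))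

/-- The first dynamical degree of `f`. -/
noncomputable def dyn {V : G.Var} (f : G.Pt V → G.Pt V) : ℝ :=
  limUnder atTop (fun n : ℕ => G.deg (f^[n]) ^ (1 / (n : ℝ)))

/-- The orbit of `x` is Zariski dense. -/
def DenseOrbit {V : G.Var} (f : G.Pt V → G.Pt V) (x : G.Pt V) : Prop :=
  Dense (Set.range fun n : ℕ => f^[n] x)

variable (G)

/-- Varieties, endomorphisms and points over `ℚ`, and published facts: the upper bound for the
arithmetic degree, monotonicity of the dynamical degree, restriction of scalars, and closures of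
orbits of rational points. -/
structure Arithmetic where
  /-- `arith f x ≤ dyn f` (Kawaguchi–Silverman) -/
  arith_le_dyn : ∀ {V : G.Var} {f : G.Pt V → G.Pt V}, G.Mor f → ∀ x, DenseOrbit f x →
    arith f x ≤ dyn f
  /-- the dynamical degree does not increase when passing from `W` to `V` by a dominant
  morphism (`g` dominant) -/
  dyn_le : ∀ {V W : G.Var} {f : G.Pt V → G.Pt V} {g : G.Pt W → G.Pt W} {φ : G.Pt W → G.Pt V},
    G.Mor f → G.Mor g → DenseRange g → G.Mor φ → φ ∘ g = f ∘ φ → DenseRange φ → dyn f ≤ dyn g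
  /-- normal projective geometrically irreducible varieties over `ℚ` -/
  QVar : Type
  /-- base change to `ℚ̄` -/
  bc : QVar → G.Var
  /-- endomorphisms defined over `ℚ` -/
  QMor : ∀ {X : QVar}, (G.Pt (bc X) → G.Pt (bc X)) → Prop
  qmor_mor : ∀ {X : QVar} {f : G.Pt (bc X) → G.Pt (bc X)}, QMor f → G.Mor f
  qmor_id : ∀ X : QVar, QMor (id : G.Pt (bc X) → G.Pt (bc X))
  qmor_comp : ∀ {X : QVar} {f g : G.Pt (bc X) → G.Pt (bc X)}, QMor f → QMor g → QMor (f ∘ g)
  /-- rational points -/
  QPt : ∀ X : QVar, Set (G.Pt (bc X))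
  qmor_pt : ∀ {X : QVar} {f : G.Pt (bc X) → G.Pt (bc X)}, QMor f → ∀ x ∈ QPt X, f x ∈ QPt X
  /-- Restriction of scalars `R`, the product of the conjugates of `V` over `ℚ̄`: it projects onto
  `V`, and the heights of the iterates of the corresponding point are bounded by multiples of
  those of the iterates of `x`. -/
  restriction : ∀ {V : G.Var} {f : G.Pt V → G.Pt V}, G.Mor f → ∀ x : G.Pt V,
    ∃ (R : QVar) (F : G.Pt (bc R) → G.Pt (bc R)) (z : G.Pt (bc R)) (π : G.Pt (bc R) → G.Pt V),
      QMor F ∧ z ∈ QPt R ∧ G.Mor π ∧ π ∘ F = f ∘ π ∧ π z = x ∧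
      ∃ C : ℝ, ∀ n : ℕ, G.ht (F^[n] z) ≤ C * G.ht (f^[n] x)
  /-- The closure of the orbit of a rational point has an irreducible component which is mapped to
  itself by an iterate of `F` and contains a point of the orbit, with dense orbit, in its normal
  locus; `W` is its normalization, `ι` the finite morphism from `W`. -/
  closure : ∀ {R : QVar} {F : G.Pt (bc R) → G.Pt (bc R)}, QMor F → ∀ z ∈ QPt R,
    ∃ (k i : ℕ) (W : QVar) (g : G.Pt (bc W) → G.Pt (bc W)) (w : G.Pt (bc W))
      (ι : G.Pt (bc W) → G.Pt (bc R)),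
      1 ≤ k ∧ QMor g ∧ w ∈ QPt W ∧ DenseOrbit g w ∧ G.Mor ι ∧ ι ∘ g = F^[k] ∘ ι ∧
      ι w = F^[i] z ∧ ∃ C : ℝ, ∀ y, G.ht y ≤ C * G.ht (ι y)

variable {G}

/-- Q1, the Kawaguchi–Silverman conjecture for endomorphisms. -/
def Conjecture (G : Geometry) : Prop :=
  ∀ (V : G.Var) (f : G.Pt V → G.Pt V), G.Mor f → ∀ x, DenseOrbit f x → arith f x = dyn f

/-- Q1 for varieties, endomorphisms and points defined over `ℚ`. -/
def RationalConjecture (A : Arithmetic G) : Prop :=
  ∀ (X : A.QVar) (g : G.Pt (A.bc X) → G.Pt (A.bc X)), A.QMor g → ∀ y ∈ A.QPt X,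
    DenseOrbit g y → arith g y = dyn g

/-- The asymptotic inequality for rational points with dense orbits. -/
def AsymptoticInequality (A : Arithmetic G) : Prop :=
  ∀ (X : A.QVar) (ε : ℝ), 0 < ε → ∃ B : ℝ, ∀ g : G.Pt (A.bc X) → G.Pt (A.bc X), A.QMor g →
    B ≤ dyn g → ∀ y ∈ A.QPt X, DenseOrbit g y → dyn g ^ (1 - ε) ≤ arith g y

/-- The rational points which violate the asymptotic inequality are not Zariski dense. -/
def SmallPointsNotDense (A : Arithmetic G) : Prop :=
  ∀ (X : A.QVar) (ε : ℝ), 0 < ε → ∃ B : ℝ, ∀ g : G.Pt (A.bc X) → G.Pt (A.bc X), A.QMor g →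
    B ≤ dyn g → ¬ Dense {y | y ∈ A.QPt X ∧ arith g y < dyn g ^ (1 - ε)}

/-! ### Growth rates -/

theorem growth_mul {u : ℕ → ℝ} (hu : ∀ n, 0 ≤ u n) {L : ℝ}
    (h : Tendsto (fun n : ℕ => u n ^ (1 / (n : ℝ))) atTop (𝓝 L)) {k : ℕ} (hk : 1 ≤ k) :
    Tendsto (fun n : ℕ => u (k * n) ^ (1 / (n : ℝ))) atTop (𝓝 (L ^ k)) := by
  have h1 : Tendsto (fun n : ℕ => k * n) atTop atTop := tendsto_id.const_mul_atTop' (by omega)
  have h2 := (h.comp h1).pow k
  refine h2.congr' ?_
  filter_upwards [eventually_ge_atTop 1] with n hn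
  have hk' : (k : ℝ) ≠ 0 := by positivity
  have hn' : (n : ℝ) ≠ 0 := by positivity
  simp only [Function.comp_apply]
  rw [← Real.rpow_mul_natCast (hu _)]
  congr 1
  push_cast
  field_simp

theorem growth_add {u : ℕ → ℝ} (hu : ∀ n, 1 ≤ u n) {L : ℝ}
    (h : Tendsto (fun n : ℕ => u n ^ (1 / (n : ℝ))) atTop (𝓝 L)) (i : ℕ) :
    Tendsto (fun n : ℕ => u (n + i) ^ (1 / (n : ℝ))) atTop (𝓝 L) := by
  have hL : 1 ≤ L := ge_of_tendsto' h fun n => Real.one_le_rpow (hu n) (by positivity)
  have h1 : Tendsto (fun n : ℕ => u (n + i) ^ (1 / ((n + i : ℕ) : ℝ))) atTop (𝓝 L) :=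
    (tendsto_add_atTop_iff_nat (f := fun n : ℕ => u n ^ (1 / (n : ℝ))) i).2 h
  have h2 : Tendsto (fun n : ℕ => ((n + i : ℕ) : ℝ) / (n : ℝ)) atTop (𝓝 1) := by
    have h3 : Tendsto (fun n : ℕ => 1 + (i : ℝ) / (n : ℝ)) atTop (𝓝 (1 + 0)) :=
      tendsto_const_nhds.add (tendsto_const_div_atTop_nhds_zero_nat (i : ℝ))
    rw [add_zero] at h3
    refine h3.congr' ?_
    filter_upwards [eventually_ge_atTop 1] with n hn
    have hn' : (n : ℝ) ≠ 0 := by positivity
    push_cast
    field_simp
  have h4 := h1.rpow h2 (Or.inl (by positivity))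
  rw [Real.rpow_one] at h4
  refine h4.congr' ?_
  filter_upwards [eventually_ge_atTop 1] with n hn
  have hn' : (n : ℝ) ≠ 0 := by positivity
  have hn2 : ((n + i : ℕ) : ℝ) ≠ 0 := by positivity
  rw [← Real.rpow_mul (by linarith [hu (n + i)])]
  congr 1
  field_simp

theorem growth_le {u v : ℕ → ℝ} (hu : ∀ n, 0 ≤ u n) (hv : ∀ n, 1 ≤ v n) {C : ℝ}
    (huv : ∀ n, u n ≤ C * v n) {L M : ℝ}
    (h : Tendsto (fun n : ℕ => u n ^ (1 / (n : ℝ))) atTop (𝓝 L))
    (h' : Tendsto (fun n : ℕ => v n ^ (1 / (n : ℝ))) atTop (𝓝 M)) : L ≤ M := by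
  have hD : (0 : ℝ) < max C 1 := lt_max_of_lt_right one_pos
  have h1 : Tendsto (fun n : ℕ => (max C 1) ^ (1 / (n : ℝ))) atTop (𝓝 1) := by
    have := tendsto_const_nhds (x := max C 1) (f := atTop (α := ℕ)) |>.rpow
      (tendsto_one_div_atTop_nhds_zero_nat (𝕜 := ℝ)) (Or.inl hD.ne')
    rwa [Real.rpow_zero] at this
  have h2 := h1.mul h'
  rw [one_mul] at h2
  refine le_of_tendsto_of_tendsto' h h2 fun n => ?_
  rw [← Real.mul_rpow hD.le (by linarith [hv n])]
  refine Real.rpow_le_rpow (hu n) ((huv n).trans ?_) (by positivity)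
  exact mul_le_mul_of_nonneg_right (le_max_left _ _) (by linarith [hv n])

/-! ### Basic facts -/

theorem mor_iterate {V : G.Var} {f : G.Pt V → G.Pt V} (hf : G.Mor f) (k : ℕ) : G.Mor f^[k] := by
  induction k with
  | zero => exact G.mor_id V
  | succ k ih => exact G.mor_comp ih hf

theorem qmor_iterate (A : Arithmetic G) {X : A.QVar} {f : G.Pt (A.bc X) → G.Pt (A.bc X)}
    (hf : A.QMor f) (k : ℕ) : A.QMor f^[k] := by
  induction k with
  | zero => exact A.qmor_id X
  | succ k ih => exact A.qmor_comp ih hf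

theorem tendsto_arith {V : G.Var} {f : G.Pt V → G.Pt V} (hf : G.Mor f) (x : G.Pt V) :
    Tendsto (fun n : ℕ => G.ht (f^[n] x) ^ (1 / (n : ℝ))) atTop (𝓝 (arith f x)) := by
  exact tendsto_nhds_limUnder (G.ht_limit hf x)

theorem tendsto_dyn {V : G.Var} {f : G.Pt V → G.Pt V} (hf : G.Mor f) :
    Tendsto (fun n : ℕ => G.deg (f^[n]) ^ (1 / (n : ℝ))) atTop (𝓝 (dyn f)) := by
  exact tendsto_nhds_limUnder (G.deg_limit hf)

theorem one_le_arith {V : G.Var} {f : G.Pt V → G.Pt V} (hf : G.Mor f) (x : G.Pt V) :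
    1 ≤ arith f x :=
  ge_of_tendsto' (tendsto_arith hf x) fun n => Real.one_le_rpow (G.one_le_ht _) (by positivity)

theorem dyn_iterate {V : G.Var} {f : G.Pt V → G.Pt V} (hf : G.Mor f) {k : ℕ} (hk : 1 ≤ k) :
    dyn f^[k] = dyn f ^ k := by
  refine tendsto_nhds_unique (tendsto_dyn (mor_iterate hf k)) ?_
  have h := growth_mul (u := fun n => G.deg (f^[n])) (fun n => G.deg_nonneg (mor_iterate hf n))
    (tendsto_dyn hf) hk
  refine h.congr fun n => ?_
  rw [Function.iterate_mul]

theorem arith_iterate {V : G.Var} {f : G.Pt V → G.Pt V} (hf : G.Mor f) (x : G.Pt V) {k : ℕ}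
    (hk : 1 ≤ k) (i : ℕ) : arith f^[k] (f^[i] x) = arith f x ^ k := by
  refine tendsto_nhds_unique (tendsto_arith (mor_iterate hf k) _) ?_
  have h1 := growth_add (u := fun n => G.ht (f^[n] x)) (fun n => G.one_le_ht _)
    (tendsto_arith hf x) i
  have h2 := growth_mul (u := fun n => G.ht (f^[n + i] x))
    (fun n => zero_le_one.trans (G.one_le_ht _)) h1 hk
  refine h2.congr fun n => ?_
  rw [Function.iterate_add_apply, Function.iterate_mul]

theorem arith_shift {V : G.Var} {f : G.Pt V → G.Pt V} (hf : G.Mor f) (x : G.Pt V) (i : ℕ) :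
    arith f (f^[i] x) = arith f x := by
  have := arith_iterate hf x le_rfl i
  rwa [Function.iterate_one, pow_one] at this

/-- In an irreducible space one of finitely many sets with a dense union is dense. -/
theorem exists_dense {X ι : Type} [TopologicalSpace X] [IrreducibleSpace X] (s : Finset ι)
    (A : ι → Set X) (h : Dense (⋃ j ∈ s, A j)) : ∃ j ∈ s, Dense (A j) := by
  classical
  have h1 : IsIrreducible (Set.univ : Set X) := IrreducibleSpace.isIrreducible_univ X
  obtain ⟨z, hz, hz'⟩ := (isIrreducible_iff_sUnion_isClosed.1 h1)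
    (s.image fun j => _root_.closure (A j)) (by
      intro z hz
      obtain ⟨j, -, rfl⟩ := Finset.mem_image.1 hz
      exact isClosed_closure) (by
      rw [← h.closure_eq]
      refine closure_minimal ?_ ?_
      · intro x hx
        obtain ⟨j, hj, hx⟩ := Set.mem_iUnion₂.1 hx
        exact Set.mem_sUnion.2 ⟨_, Finset.mem_coe.2 (Finset.mem_image_of_mem _ hj),
          subset_closure hx⟩
      · rw [Set.sUnion_eq_biUnion]
        refine Set.Finite.isClosed_biUnion (Finset.finite_toSet _) ?_
        intro z hz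
        obtain ⟨j, -, rfl⟩ := Finset.mem_image.1 (Finset.mem_coe.1 hz)
        exact isClosed_closure)
  obtain ⟨j, hj, rfl⟩ := Finset.mem_image.1 hz
  exact ⟨j, hj, fun x => hz' (Set.mem_univ x)⟩

theorem dense_iterate {V : G.Var} {f : G.Pt V → G.Pt V} (hf : G.Mor f) {x : G.Pt V}
    (hx : DenseOrbit f x) {k : ℕ} (hk : 1 ≤ k) (i : ℕ) : DenseOrbit f^[k] (f^[i] x) := by
  classical
  by_cases hV : ∃ y : G.Pt V, Dense {y}
  · obtain ⟨y, hy⟩ := hV
    have h1 : ∀ z : G.Pt V, z = y := by
      intro z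
      have := hy z
      rwa [closure_singleton] at this
    intro z
    refine subset_closure ⟨0, ?_⟩
    exact (h1 _).trans (h1 z).symm
  push Not at hV
  -- tails of the orbit are dense
  have tail : ∀ m : ℕ, Dense (Set.range fun n : ℕ => f^[n + m] x) := by
    intro m
    have h2 : Dense (⋃ j ∈ Finset.range (m + 1),
        (if j < m then {f^[j] x} else Set.range fun n : ℕ => f^[n + m] x)) := by
      refine hx.mono ?_
      rintro _ ⟨n, rfl⟩
      by_cases hn : n < m
      · refine Set.mem_iUnion₂.2 ⟨n, Finset.mem_range.2 (by omega), ?_⟩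
        rw [if_pos hn]
        rfl
      · refine Set.mem_iUnion₂.2 ⟨m, Finset.mem_range.2 (by omega), ?_⟩
        rw [if_neg (lt_irrefl m)]
        exact ⟨n - m, by simp only; rw [Nat.sub_add_cancel (not_lt.1 hn)]⟩
    obtain ⟨j, -, hj⟩ := exists_dense _ _ h2
    by_cases hjm : j < m
    · rw [if_pos hjm] at hj
      exact absurd hj (hV _)
    · rwa [if_neg hjm] at hj
  have h3 : Dense (⋃ j ∈ Finset.range k, Set.range fun n : ℕ => f^[k * n + (j + i)] x) := by
    refine (tail i).mono ?_
    rintro _ ⟨n, rfl⟩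
    refine Set.mem_iUnion₂.2 ⟨n % k, Finset.mem_range.2 (Nat.mod_lt _ (by omega)), n / k, ?_⟩
    simp only
    rw [← add_assoc, Nat.div_add_mod]
  obtain ⟨j, hj, hd⟩ := exists_dense _ _ h3
  have hj' : j < k := Finset.mem_range.1 hj
  -- apply the iterate of order `k - j`
  have hc : Continuous f^[k - j] := G.mor_continuous (mor_iterate hf _)
  have hr : DenseRange f^[k - j] := by
    refine (tail (k - j)).mono ?_
    rintro _ ⟨n, rfl⟩
    refine ⟨f^[n] x, ?_⟩
    change f^[k - j] (f^[n] x) = f^[n + (k - j)] x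
    rw [add_comm n, Function.iterate_add_apply]
  have hd' := hr.dense_image hc hd
  refine hd'.mono ?_
  rintro _ ⟨_, ⟨n, rfl⟩, rfl⟩
  refine ⟨n + 1, ?_⟩
  simp only
  rw [← Function.iterate_mul, ← Function.iterate_add_apply, ← Function.iterate_add_apply]
  congr 1
  rw [mul_add, mul_one]
  omega

theorem semiconj_iterate {V W : G.Var} {f : G.Pt V → G.Pt V} {g : G.Pt W → G.Pt W}
    {φ : G.Pt W → G.Pt V} (h : φ ∘ g = f ∘ φ) (k : ℕ) : φ ∘ g^[k] = f^[k] ∘ φ :=
  funext fun y => Function.Semiconj.iterate_right (f := φ) (ga := g) (gb := f)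
    (fun z => congrFun h z) k y

/-! ### The reductions -/

theorem conjecture_of_rational (A : Arithmetic G) (h : RationalConjecture A) : Conjecture G := by
  intro V f hf x hx
  refine le_antisymm (A.arith_le_dyn hf x hx) ?_
  obtain ⟨R, F, z, π, hF, hz, hπ, hπF, hπz, C, hC⟩ := A.restriction hf x
  obtain ⟨k, i, W, g, w, ι, hk, hg, hw, hd, hι, hιg, hιw, C', hC'⟩ := A.closure hF z hz
  have hF' := A.qmor_mor hF
  have hg' := A.qmor_mor hg
  -- arithmetic degrees
  have h1 : arith F z ≤ arith f x :=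
    growth_le (fun n => zero_le_one.trans (G.one_le_ht _)) (fun n => G.one_le_ht _) hC
      (tendsto_arith hF' z) (tendsto_arith hf x)
  have h2 : arith g w ≤ arith F^[k] (F^[i] z) := by
    refine growth_le (fun n => zero_le_one.trans (G.one_le_ht _)) (fun n => G.one_le_ht _)
      (C := C') (fun n => ?_) (tendsto_arith hg' w) (tendsto_arith (mor_iterate hF' k) _)
    refine (hC' _).trans (le_of_eq ?_)
    rw [← hιw]
    congr 2
    exact congrFun (semiconj_iterate hιg n) w
  rw [arith_iterate hF' z hk i] at h2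
  -- dynamical degrees
  have hcomp : (π ∘ ι) ∘ g = f^[k] ∘ (π ∘ ι) := by
    rw [Function.comp_assoc, hιg, ← Function.comp_assoc, semiconj_iterate hπF k,
      Function.comp_assoc]
  have hpt : (π ∘ ι) w = f^[i] x := by
    rw [Function.comp_apply, hιw, ← hπz]
    exact congrFun (semiconj_iterate hπF i) z
  have hdr : DenseRange (π ∘ ι) := by
    refine (dense_iterate hf hx hk i).mono ?_
    rintro _ ⟨n, rfl⟩
    refine ⟨g^[n] w, ?_⟩
    rw [← hpt]
    exact congrFun (semiconj_iterate hcomp n) w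
  have hgr : DenseRange g := by
    refine (dense_iterate hg' hd le_rfl 1).mono ?_
    rintro _ ⟨n, rfl⟩
    refine ⟨g^[n] w, ?_⟩
    simp only [Function.iterate_one]
    exact (Function.iterate_succ_apply' g n w).symm.trans (Function.iterate_succ_apply g n w)
  have h3 := A.dyn_le (mor_iterate hf k) hg' hgr (G.mor_comp hπ hι) hcomp hdr
  rw [dyn_iterate hf hk, ← h W g hg w hw hd] at h3
  have h4 : dyn f ^ k ≤ arith f x ^ k :=
    h3.trans (h2.trans (pow_le_pow_left₀ (zero_le_one.trans (one_le_arith hF' z)) h1 k))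
  exact le_of_pow_le_pow_left₀ (by omega) (zero_le_one.trans (one_le_arith hf x)) h4

theorem rational_of_asymptotic (A : Arithmetic G) (h : AsymptoticInequality A) :
    RationalConjecture A := by
  intro X g hg y hy hd
  have hg' := A.qmor_mor hg
  have hle := A.arith_le_dyn hg' y hd
  refine le_antisymm hle ?_
  have h1 : 1 ≤ arith g y := one_le_arith hg' y
  rcases (h1.trans hle).eq_or_lt with h0 | h0
  · rw [← h0]
    exact h1
  have h2 : ∀ ε : ℝ, 0 < ε → dyn g ^ (1 - ε) ≤ arith g y := by
    intro ε hε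
    obtain ⟨B, hB⟩ := h X ε hε
    obtain ⟨k, hk⟩ := pow_unbounded_of_one_lt B h0
    have hk1 : dyn g ^ k ≤ dyn g ^ (k + 1) := pow_le_pow_right₀ h0.le (Nat.le_succ k)
    have h3 := hB g^[k + 1] (qmor_iterate A hg _)
      (by rw [dyn_iterate hg' (Nat.succ_pos k)]; exact hk.le.trans hk1) y hy
      (dense_iterate hg' hd (Nat.succ_pos k) 0)
    have h4 := arith_iterate hg' y (Nat.succ_pos k) 0
    rw [Function.iterate_zero, id] at h4
    rw [h4, dyn_iterate hg' (Nat.succ_pos k), ← Real.rpow_natCast, ← Real.rpow_mul (by linarith),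
      mul_comm, Real.rpow_mul (by linarith), Real.rpow_natCast] at h3
    exact le_of_pow_le_pow_left₀ (Nat.succ_ne_zero k) (by linarith) h3
  have h5 : Tendsto (fun n : ℕ => dyn g ^ (1 - 1 / ((n : ℝ) + 1))) atTop (𝓝 (dyn g ^ (1 - 0 : ℝ))) :=
    tendsto_const_nhds.rpow (tendsto_const_nhds.sub tendsto_one_div_add_atTop_nhds_zero_nat)
      (Or.inl (by linarith))
  rw [sub_zero, Real.rpow_one] at h5
  exact le_of_tendsto' h5 fun n => h2 _ (by positivity)

theorem asymptotic_of_rational (A : Arithmetic G) (h : RationalConjecture A) :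
    AsymptoticInequality A := by
  intro X ε hε
  refine ⟨1, fun g hg hB y hy hd => ?_⟩
  rw [h X g hg y hy hd]
  calc dyn g ^ (1 - ε) ≤ dyn g ^ (1 : ℝ) := Real.rpow_le_rpow_of_exponent_le hB (by linarith)
    _ = dyn g := Real.rpow_one _

theorem asymptotic_of_sparse (A : Arithmetic G) (h : SmallPointsNotDense A) :
    AsymptoticInequality A := by
  intro X ε hε
  obtain ⟨B, hB⟩ := h X ε hε
  refine ⟨B, fun g hg hdyn y hy hd => ?_⟩
  by_contra hlt
  push Not at hlt
  refine hB g hg hdyn (hd.mono ?_)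
  rintro _ ⟨n, rfl⟩
  refine ⟨?_, ?_⟩
  · simp only
    induction n with
    | zero => exact hy
    | succ n ih =>
      rw [Function.iterate_succ_apply']
      exact A.qmor_pt hg _ ih
  · simp only
    rw [arith_shift (A.qmor_mor hg) y n]
    exact hlt

/-- The Kawaguchi–Silverman conjecture for endomorphisms (over `ℚ̄`) holds iff it holds for
varieties, endomorphisms and points over `ℚ`, iff the asymptotic inequality holds for rational
points with dense orbits. It holds if the rational points which violate the asymptotic inequality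
are never dense. -/
theorem result (G : Geometry) (A : Arithmetic G) :
    List.TFAE [Conjecture G, RationalConjecture A, AsymptoticInequality A] ∧
      (SmallPointsNotDense A → Conjecture G) := by
  have h21 := conjecture_of_rational A
  have h32 := rational_of_asymptotic A
  have h43 := asymptotic_of_sparse A
  refine ⟨?_, fun h => h21 (h32 (h43 h))⟩
  tfae_have 1 → 2 := fun h X g hg y _ hd => h _ g (A.qmor_mor hg) y hd
  tfae_have 2 → 1 := h21
  tfae_have 2 → 3 := asymptotic_of_rational A
  tfae_have 3 → 2 := h32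
  tfae_finish

end Pool.Agent.Results.MP_0e7dfd_ag.RationalPointsSuffice
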