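import Mathlib
import Pool.Agent.TH8.OR.E2

/-!
MP_0e7dfd_ag, Q1: the dynamical degree of a dominant rational self-map with a Zariski-dense orbit
whose points have homogeneous coordinates satisfying linear recurrences.
-/

set_option autoImplicit false

namespace Pool.Agent.Results.MP_0e7dfd_ag.RecursiveOrbits

open MvPolynomial
open Pool.Agent.TH8.OR (iter GivenBy Invertible PRecD)

variable {k : Type} [Field k] {N : ℕ}

/-- The forms in the prime ideal `p` define the projective variety `X`; the forms `F j` of one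
degree are the coordinates of a dominant rational map `f` from `X` to `X` (a form `H` vanishes on
`X` if and only if `H ∘ F` does); and `x` is an orbit of `f` which is Zariski-dense in `X` (at the
points where all `F j` vanish nothing is required of the next point). -/
structure DenseOrbit (p : Ideal (MvPolynomial (Fin (N + 1)) k))
    (F : Fin (N + 1) → MvPolynomial (Fin (N + 1)) k) (x : ℕ → Fin (N + 1) → k) : Prop where
  prime : p.IsPrime
  forms : ∃ d, ∀ j, (F j).IsHomogeneous d
  dominant : ∀ (e : ℕ) (H : MvPolynomial (Fin (N + 1)) k), H.IsHomogeneous e →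
    (aeval F H ∈ p ↔ H ∈ p)
  ne_zero : ∀ m, x m ≠ 0
  orbit : ∀ m i j, eval (x m) (F i) * x (m + 1) j = eval (x m) (F j) * x (m + 1) i
  dense : ∀ (e : ℕ) (G : MvPolynomial (Fin (N + 1)) k), G.IsHomogeneous e →
    ((∀ m, eval (x m) G = 0) ↔ G ∈ p)

/-- The sequence `t` is an orbit, without repetition, of the rational function `g1 / g2` of degree
at most `δ`. -/
def OrbitOf (t : ℕ → k) (δ : ℕ) : Prop :=
  Function.Injective t ∧ ∃ g1 g2 : Polynomial k, g1.natDegree ≤ δ ∧ g2.natDegree ≤ δ ∧
    ∀ m, g2.eval (t m) ≠ 0 ∧ t (m + 1) * g2.eval (t m) = g1.eval (t m)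

/-- The sequence `f` satisfies a nontrivial linear recurrence whose coefficients are polynomials
in `t m`. -/
def Rec (t f : ℕ → k) : Prop :=
  ∃ (r : ℕ) (a : ℕ → Polynomial k), (∃ i ≤ r, a i ≠ 0) ∧
    ∀ m : ℕ, ∑ i ∈ Finset.range (r + 1), (a i).eval (t m) * f (m + i) = 0

/-- The sequence `f` satisfies a nontrivial linear recurrence with constant coefficients. -/
def CRec (f : ℕ → k) : Prop :=
  ∃ (r : ℕ) (a : ℕ → k), (∃ i ≤ r, a i ≠ 0) ∧
    ∀ m : ℕ, ∑ i ∈ Finset.range (r + 1), a i * f (m + i) = 0

/-- The graph `{(t m, x m)}` is Zariski-dense in the product of the affine line and `X`. -/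
def GraphDense (p : Ideal (MvPolynomial (Fin (N + 1)) k)) (t : ℕ → k)
    (x : ℕ → Fin (N + 1) → k) : Prop :=
  ∀ (e : ℕ) (P : Polynomial (MvPolynomial (Fin (N + 1)) k)), (∀ i, (P.coeff i).IsHomogeneous e) →
    (∀ m : ℕ, (P.map (eval (x m))).eval (t m) = 0) → ∀ i, P.coeff i ∈ p

/-- Let `X` be a projective variety over a field `k` of characteristic zero, let `f` be a dominant
rational map from `X` to `X`, and let `x 0, x 1, …` be an orbit of `f` in `X(k)` which is
Zariski-dense in `X`.

(1) Let `t` be an orbit, without repetition, of a rational function of degree at most `δ` (for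
instance `t m = m` or `t m = q ^ m`, with `δ = 1`), and suppose that the points `x m` have
homogeneous coordinates which satisfy nontrivial linear recurrences whose coefficients are
polynomials in `t m`. Then there are `a` and `b` such that for all `n` the iterate `f ^ n` is given
by forms of degree at most `a + b * (1 + δ + … + δ ^ (n - 1))`. If `δ ≤ 1`, then `f` is birational.
If the graph `{(t m, x m)}` is Zariski-dense in the product of the affine line and `X`, then `f` is
birational and all iterates of `f` are given by forms of bounded degree.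

(2) Suppose that the points `x m` have homogeneous coordinates which satisfy nontrivial linear
recurrences with constant coefficients. Then `f` is birational, and all iterates of `f` are given
by forms of bounded degree. -/
theorem result (k : Type) [Field k] [CharZero k] {N : ℕ}
    (p : Ideal (MvPolynomial (Fin (N + 1)) k)) (F : Fin (N + 1) → MvPolynomial (Fin (N + 1)) k)
    (x : ℕ → Fin (N + 1) → k) (h : DenseOrbit p F x) :
    (∀ (t : ℕ → k) (δ : ℕ), OrbitOf t δ → (∀ j, Rec t fun m => x m j) →
      (∃ a b : ℕ, ∀ n, ∃ e ≤ a + b * ∑ i ∈ Finset.range n, δ ^ i, GivenBy p F n e) ∧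
        (δ ≤ 1 → Invertible p F) ∧
        (GraphDense p t x → Invertible p F ∧ ∃ a : ℕ, ∀ n, ∃ e ≤ a, GivenBy p F n e)) ∧
    ((∀ j, CRec fun m => x m j) →
      Invertible p F ∧ ∃ a : ℕ, ∀ n, ∃ e ≤ a, GivenBy p F n e) := by
  classical
  obtain ⟨d, hF⟩ := h.forms
  obtain ⟨j0, hj0⟩ := Pool.Agent.TH8.OR.exists_X h.ne_zero h.dense
  have hinv : ∀ a : ℕ, (∀ n, ∃ e ≤ a, GivenBy p F n e) → Invertible p F := by
    intro a ha
    refine Pool.Agent.TH8.OR.invertible_of_growth (a := a) (b := 0) h.prime hF h.dominant hj0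
      fun n => ?_
    obtain ⟨e, he, h1⟩ := ha n
    exact ⟨e, by omega, h1⟩
  constructor
  · rintro t δ ⟨ht, g1, g2, hg1, hg2, hg⟩ hrec
    choose r a h1 h2 using hrec
    let c : ℕ := Finset.univ.sup fun j : Fin (N + 1) =>
      (Finset.range (r j + 1)).sup fun i => (a j i).natDegree
    have hD : ∀ j, PRecD t c fun m => x m j := by
      intro j
      refine ⟨r j, a j, h1 j, fun i hi => ?_, h2 j⟩
      have e1 : (a j i).natDegree ≤ (Finset.range (r j + 1)).sup fun i => (a j i).natDegree :=
        Finset.le_sup (f := fun i => (a j i).natDegree) (Finset.mem_range.2 (by omega))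
      exact e1.trans (Finset.le_sup (f := fun j : Fin (N + 1) =>
        (Finset.range (r j + 1)).sup fun i => (a j i).natDegree) (Finset.mem_univ j))
    obtain ⟨A, B, hAB⟩ := Pool.Agent.TH8.OR.slow2 h.prime hF h.dominant h.ne_zero h.orbit h.dense
      ht hg1 hg2 (fun m => (hg m).1) (fun m => (hg m).2) hD
    refine ⟨⟨A, c * B, hAB⟩, fun hδ => ?_, fun hgr => ?_⟩
    · refine Pool.Agent.TH8.OR.invertible_of_growth (a := A) (b := c * B) h.prime hF h.dominant hj0
        fun n => ?_
      obtain ⟨e, he, h3⟩ := hAB n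
      refine ⟨e, he.trans ?_, h3⟩
      have h4 : Pool.Agent.TH8.OR.S δ n ≤ n := by
        refine (Finset.sum_le_card_nsmul (Finset.range n) _ 1 fun i _ =>
          pow_le_one' hδ i).trans ?_
        rw [Finset.card_range, smul_eq_mul, mul_one]
      exact Nat.add_le_add_left (Nat.mul_le_mul_left _ h4) _
    · obtain ⟨a', ha'⟩ := Pool.Agent.TH8.OR.bounded_graph2 h.prime hF h.dominant h.ne_zero h.orbit
        h.dense ht hg1 hg2 (fun m => (hg m).1) (fun m => (hg m).2) hD hgr
      exact ⟨hinv a' ha', a', ha'⟩
  · intro hrec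
    choose r a h1 h2 using hrec
    have hD : ∀ j, PRecD (fun m => (m : k)) 0 fun m => x m j := by
      intro j
      obtain ⟨i, hi, hne⟩ := h1 j
      refine ⟨r j, fun i => Polynomial.C (a j i), ⟨i, hi, fun h0 => hne
        (Polynomial.C_eq_zero.1 h0)⟩, fun i _ => ?_, fun m => ?_⟩
      · rw [Polynomial.natDegree_C]
      · simp only [Polynomial.eval_C]
        exact h2 j m
    obtain ⟨A, B, hAB⟩ := Pool.Agent.TH8.OR.slow h.prime hF h.dominant h.ne_zero h.orbit h.dense
      (τ := fun m => (m : k)) Nat.cast_injective (α := 1) (β := 1)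
      (fun m => by push_cast; ring) hD
    have hA : ∀ n, ∃ e ≤ A, GivenBy p F n e := by
      intro n
      obtain ⟨e, he, h3⟩ := hAB n
      exact ⟨e, by simpa using he, h3⟩
    exact ⟨hinv A hA, A, hA⟩

end Pool.Agent.Results.MP_0e7dfd_ag.RecursiveOrbits
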